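import Pool.Agent.Q139.Lim.Var

/-!
# Almost periodicity: the pigeonhole step
-/

set_option autoImplicit false

namespace Pool.Agent.Q139.Lim

open Finset

section

variable (f : ℕ → Fin 3) (a b n : ℕ)

/-- the index set of the values -/
noncomputable def Om : Finset (Fin 3 × Fin 3 × ℤ) := univ ×ˢ univ ×ˢ (Icc (0 : ℤ) ((a + b) * n))

theorem sum_g (x : ℕ) :
    ∑ ω ∈ Om a b n, g f a b n ω.1 ω.2.1 ω.2.2 x ≤ n := by
  unfold g
  have h1 : ∀ ω ∈ Om a b n, (((Icc 1 n).filter fun y => f x = ω.1 ∧ f y = ω.2.1 ∧ (a : ℤ) * x + b * y = ω.2.2).card : ℝ) =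
      ∑ y ∈ Icc 1 n, if f x = ω.1 ∧ f y = ω.2.1 ∧ (a : ℤ) * x + b * y = ω.2.2 then (1 : ℝ) else 0 := by
    intro ω _
    rw [card_filter]
    push_cast
    rfl
  rw [sum_congr rfl h1, sum_comm]
  calc ∑ y ∈ Icc 1 n, ∑ ω ∈ Om a b n, (if f x = ω.1 ∧ f y = ω.2.1 ∧ (a : ℤ) * x + b * y = ω.2.2 then (1 : ℝ) else 0)
      ≤ ∑ y ∈ Icc 1 n, 1 := by
        refine sum_le_sum fun y _ => ?_
        rw [← sum_filter, sum_const, nsmul_eq_mul, mul_one]
        have : ((Om a b n).filter fun ω => f x = ω.1 ∧ f y = ω.2.1 ∧ (a : ℤ) * x + b * y = ω.2.2).card ≤ 1 := by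
          rw [card_le_one]
          rintro ⟨i, j, w⟩ h ⟨i', j', w'⟩ h'
          simp only [mem_filter] at h h'
          obtain ⟨-, h1, h2, h3⟩ := h
          obtain ⟨-, h1', h2', h3'⟩ := h'
          rw [← h1, ← h2, ← h3, ← h1', ← h2', ← h3']
        exact_mod_cast this
    _ = n := by simp

theorem sum_F : ∑ ω ∈ Om a b n, F f a b n ω.1 ω.2.1 ω.2.2 ≤ (n : ℝ) ^ 2 := by
  unfold F
  rw [sum_comm]
  calc _ ≤ ∑ x : Fin n, (n : ℝ) := sum_le_sum fun x _ => sum_g f a b n (x + 1)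
    _ = _ := by simp [sq]

variable (k : ℕ)

/-- the total square error of a sample -/
noncomputable def Q (x : Fin k → Fin n) : ℝ := ∑ ω ∈ Om a b n, H f a b n k ω.1 ω.2.1 ω.2.2 x ^ 2

theorem Q_nonneg (x : Fin k → Fin n) : 0 ≤ Q f a b n k x := sum_nonneg fun _ _ => sq_nonneg _

theorem sum_Q (hn : 0 < n) (hb : 0 < b) :
    ∑ x : Fin k → Fin n, Q f a b n k x ≤ k * (n : ℝ) ^ (k + 3) := by
  unfold Q
  rw [sum_comm]
  calc _ ≤ ∑ ω ∈ Om a b n, k * (n : ℝ) ^ (k + 1) * F f a b n ω.1 ω.2.1 ω.2.2 :=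
        sum_le_sum fun ω _ => H_second f a b n k hn hb ω.1 ω.2.1 ω.2.2
    _ = k * (n : ℝ) ^ (k + 1) * ∑ ω ∈ Om a b n, F f a b n ω.1 ω.2.1 ω.2.2 := by rw [mul_sum]
    _ ≤ k * (n : ℝ) ^ (k + 1) * (n : ℝ) ^ 2 := by
        gcongr
        exact sum_F f a b n
    _ = _ := by ring

open Classical in
/-- the good samples -/
noncomputable def Good : Finset (Fin k → Fin n) := univ.filter fun x => Q f a b n k x ≤ 2 * k * (n : ℝ) ^ 3

theorem card_Good (hn : 0 < n) (hb : 0 < b) (hk : 0 < k) :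
    (n : ℝ) ^ k ≤ 2 * (Good f a b n k).card := by
  classical
  have hn' : (0 : ℝ) < n := by exact_mod_cast hn
  have hk' : (0 : ℝ) < k := by exact_mod_cast hk
  have h1 : (Good f a b n k).card + (univ.filter fun x : Fin k → Fin n => ¬ Q f a b n k x ≤ 2 * k * (n : ℝ) ^ 3).card = n ^ k := by
    unfold Good
    rw [card_filter_add_card_filter_not]
    simp
  set B := univ.filter fun x : Fin k → Fin n => ¬ Q f a b n k x ≤ 2 * k * (n : ℝ) ^ 3 with hB
  have h2 : (B.card : ℝ) * (2 * k * (n : ℝ) ^ 3) ≤ k * (n : ℝ) ^ (k + 3) := by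
    calc (B.card : ℝ) * (2 * k * (n : ℝ) ^ 3) = ∑ x ∈ B, 2 * k * (n : ℝ) ^ 3 := by simp
      _ ≤ ∑ x ∈ B, Q f a b n k x := sum_le_sum fun x hx => by
          have := (mem_filter.mp hx).2
          push Not at this
          exact this.le
      _ ≤ ∑ x, Q f a b n k x := sum_le_sum_of_subset_of_nonneg (subset_univ _) fun x _ _ => Q_nonneg f a b n k x
      _ ≤ _ := sum_Q f a b n k hn hb
  have h3 : 2 * (B.card : ℝ) ≤ (n : ℝ) ^ k := by
    have h4 : (k * (n : ℝ) ^ 3) * (2 * B.card) ≤ (k * (n : ℝ) ^ 3) * (n : ℝ) ^ k := by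
      calc (k * (n : ℝ) ^ 3) * (2 * B.card) = (B.card : ℝ) * (2 * k * (n : ℝ) ^ 3) := by ring
        _ ≤ k * (n : ℝ) ^ (k + 3) := h2
        _ = _ := by ring
    exact le_of_mul_le_mul_left h4 (by positivity)
  have h5 : ((Good f a b n k).card : ℝ) + B.card = (n : ℝ) ^ k := by exact_mod_cast h1
  linarith

theorem exists_pair (hb : 0 < b) (hk : 0 < k) (hn : 2 * 6 ^ k + 1 ≤ n) :
    ∃ (d : ℕ) (x x' : Fin k → Fin n), 1 ≤ d ∧ d ≤ 2 * 6 ^ k ∧
      Q f a b n k x ≤ 2 * k * (n : ℝ) ^ 3 ∧ Q f a b n k x' ≤ 2 * k * (n : ℝ) ^ 3 ∧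
      (∀ l, (x l : ℕ) = x' l + d) ∧ ∀ l, f (x l + 1) = f (x' l + 1) := by
  classical
  have hn0 : 0 < n := by omega
  have hn' : (0 : ℝ) < n := by exact_mod_cast hn0
  set K := 2 * 6 ^ k + 1 with hK
  set D := range K ×ˢ Good f a b n k with hD
  set C := (Fintype.piFinset fun _ : Fin k => Icc 1 (2 * n)) ×ˢ (univ : Finset (Fin k → Fin 3)) with hC
  set Φ : ℕ × (Fin k → Fin n) → (Fin k → ℕ) × (Fin k → Fin 3) :=
    fun p => (fun l => p.2 l + 1 + p.1, fun l => f (p.2 l + 1)) with hΦ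
  have hcard : C.card < D.card := by
    rw [hC, hD, card_product, card_product, card_range, Fintype.card_piFinset]
    simp only [prod_const, Nat.card_Icc, card_univ, Fintype.card_fin, Fintype.card_fun]
    have h1 := card_Good f a b n k hn0 hb hk
    have h2 : (((2 * n + 1 - 1) ^ k * 3 ^ k : ℕ) : ℝ) < ((K * (Good f a b n k).card : ℕ) : ℝ) := by
      rw [show 2 * n + 1 - 1 = 2 * n by omega]
      push_cast
      have h3 : (2 * (n : ℝ)) ^ k * 3 ^ k = 6 ^ k * (n : ℝ) ^ k := by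
        rw [mul_pow, mul_right_comm, ← mul_pow]
        norm_num
      rw [h3, hK]
      push_cast
      have h4 : (0 : ℝ) < (n : ℝ) ^ k := by positivity
      have h5 : (0 : ℝ) < 6 ^ k := by positivity
      nlinarith
    exact_mod_cast h2
  have hmaps : ∀ p ∈ D, Φ p ∈ C := by
    rintro ⟨s, x⟩ hp
    simp only [hD, mem_product, mem_range] at hp
    simp only [hC, hΦ, mem_product, Fintype.mem_piFinset, mem_Icc, mem_univ, and_true]
    intro l
    have := (x l).isLt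
    omega
  obtain ⟨p, hp, p', hp', hne, heq⟩ := exists_ne_map_eq_of_card_lt_of_maps_to hcard hmaps
  obtain ⟨s, x⟩ := p
  obtain ⟨s', x'⟩ := p'
  simp only [hD, mem_product, mem_range, Good, mem_filter, mem_univ, true_and] at hp hp'
  simp only [hΦ, Prod.mk.injEq] at heq
  have e1 : ∀ l, (x l : ℕ) + s = x' l + s' := fun l => by
    have := congrFun heq.1 l
    omega
  have e2 : ∀ l, f (x l + 1) = f (x' l + 1) := fun l => congrFun heq.2 l
  rcases lt_trichotomy s s' with h | h | h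
  · exact ⟨s' - s, x, x', by omega, by omega, hp.2, hp'.2, fun l => by have := e1 l; omega, e2⟩
  · exfalso
    apply hne
    rw [h] at e1
    have : x = x' := funext fun l => Fin.ext (by have := e1 l; omega)
    rw [h, this]
  · exact ⟨s - s', x', x, by omega, by omega, hp'.2, hp.2, fun l => by have := e1 l; omega, fun l => (e2 l).symm⟩

variable {f a b n k}

theorem g_zero {i j : Fin 3} {w : ℤ} (hw : w ∉ Icc (0 : ℤ) ((a + b) * n)) {x : ℕ} (hx : x ≤ n) :
    g f a b n i j w x = 0 := by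
  unfold g
  rw [Nat.cast_eq_zero, card_eq_zero, filter_eq_empty_iff]
  rintro y hy ⟨-, -, h⟩
  apply hw
  rw [mem_Icc] at hy ⊢
  have h1 : (x : ℤ) ≤ n := by exact_mod_cast hx
  have h2 : (y : ℤ) ≤ n := by exact_mod_cast hy.2
  have h3 : (0 : ℤ) ≤ a := by positivity
  have h4 : (0 : ℤ) ≤ b := by positivity
  constructor
  · rw [← h]; positivity
  · rw [← h]; nlinarith

theorem H_zero {i j : Fin 3} {w : ℤ} (hw : w ∉ Icc (0 : ℤ) ((a + b) * n)) (x : Fin k → Fin n) :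
    H f a b n k i j w x = 0 := by
  rw [H_eq]
  have h1 : F f a b n i j w = 0 := sum_eq_zero fun x _ => g_zero hw (by have := x.isLt; omega)
  have h2 : ∑ l, g f a b n i j w (x l + 1) = 0 := sum_eq_zero fun l _ => g_zero hw (by have := (x l).isLt; omega)
  rw [h1, h2]
  simp

/-- Cauchy–Schwarz for a good sample, `k = 2 r²` -/
theorem sum_abs_H {r : ℕ} {c : ℕ} (hc : 0 < c) (hk : k = 2 * r ^ 2) {x : Fin k → Fin n}
    (hQ : Q f a b n k x ≤ 2 * k * (n : ℝ) ^ 3) (i j : Fin 3) (t : ℤ) (S : Finset ℕ) (hS : S ⊆ Icc 1 n) :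
    ∑ z ∈ S, |H f a b n k i j (c * z + t) x| ≤ 2 * r * (n : ℝ) ^ 2 := by
  have hc' : (c : ℤ) ≠ 0 := by exact_mod_cast hc.ne'
  have h1 : ∑ z ∈ Icc 1 n, H f a b n k i j (c * z + t) x ^ 2 ≤ Q f a b n k x := by
    classical
    have hinj : Set.InjOn (fun z : ℕ => (c : ℤ) * z + t) (Icc 1 n : Finset ℕ) := by
      intro z _ z' _ h
      simp only at h
      have : (c : ℤ) * z = c * z' := by linarith
      exact_mod_cast mul_left_cancel₀ hc' this
    have e1 : ∑ z ∈ Icc 1 n, H f a b n k i j (c * z + t) x ^ 2 =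
        ∑ w ∈ (Icc 1 n).image (fun z : ℕ => (c : ℤ) * z + t), H f a b n k i j w x ^ 2 := by
      rw [sum_image hinj]
    have e2 : ∑ w ∈ (Icc 1 n).image (fun z : ℕ => (c : ℤ) * z + t), H f a b n k i j w x ^ 2 =
        ∑ w ∈ ((Icc 1 n).image (fun z : ℕ => (c : ℤ) * z + t)).filter (fun w => w ∈ Icc (0 : ℤ) ((a + b) * n)),
          H f a b n k i j w x ^ 2 := by
      symm
      apply sum_filter_of_ne
      intro w _ h
      by_contra hw
      apply h
      rw [H_zero hw]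
      simp
    have e3 : ∑ w ∈ ((Icc 1 n).image (fun z : ℕ => (c : ℤ) * z + t)).filter (fun w => w ∈ Icc (0 : ℤ) ((a + b) * n)),
          H f a b n k i j w x ^ 2 ≤ ∑ w ∈ Icc (0 : ℤ) ((a + b) * n), H f a b n k i j w x ^ 2 :=
      sum_le_sum_of_subset_of_nonneg (fun w hw => (mem_filter.mp hw).2) fun _ _ _ => sq_nonneg _
    have e4 : ∑ w ∈ Icc (0 : ℤ) ((a + b) * n), H f a b n k i j w x ^ 2 ≤ Q f a b n k x := by
      unfold Q Om
      rw [sum_product]
      refine le_trans ?_ (single_le_sum (f := fun i' => ∑ y ∈ univ ×ˢ Icc (0 : ℤ) ((a + b) * n),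
        H f a b n k i' y.1 y.2 x ^ 2) (fun i' _ => sum_nonneg fun _ _ => sq_nonneg _) (mem_univ i))
      rw [sum_product]
      exact single_le_sum (f := fun j' => ∑ w ∈ Icc (0 : ℤ) ((a + b) * n),
        H f a b n k i j' w x ^ 2) (fun j' _ => sum_nonneg fun _ _ => sq_nonneg _) (mem_univ j)
    linarith
  have h2 : ∑ z ∈ S, |H f a b n k i j (c * z + t) x| ≤ ∑ z ∈ Icc 1 n, |H f a b n k i j (c * z + t) x| :=
    sum_le_sum_of_subset_of_nonneg hS fun _ _ _ => abs_nonneg _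
  have h3 : (∑ z ∈ Icc 1 n, |H f a b n k i j (c * z + t) x|) ^ 2 ≤ n * ∑ z ∈ Icc 1 n, H f a b n k i j (c * z + t) x ^ 2 := by
    have := sq_sum_le_card_mul_sum_sq (s := Icc 1 n) (f := fun z : ℕ => |H f a b n k i j (c * z + t) x|)
    simpa using this
  have h4 : (∑ z ∈ Icc 1 n, |H f a b n k i j (c * z + t) x|) ^ 2 ≤ (2 * r * (n : ℝ) ^ 2) ^ 2 := by
    calc _ ≤ n * ∑ z ∈ Icc 1 n, H f a b n k i j (c * z + t) x ^ 2 := h3
      _ ≤ n * (2 * k * (n : ℝ) ^ 3) := by gcongr; linarith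
      _ = _ := by
        rw [hk]
        push_cast
        ring
  have h5 := abs_le_of_sq_le_sq h4 (by positivity)
  linarith [le_abs_self (∑ z ∈ Icc 1 n, |H f a b n k i j (c * z + t) x|), h5, h2]

theorem g_shift {i j : Fin 3} {w : ℤ} {x d : ℕ} (h : f (x + d) = f x) :
    g f a b n i j (w + a * d) (x + d) = g f a b n i j w x := by
  unfold g
  congr 2
  ext y
  simp only [mem_filter, h]
  push_cast
  constructor
  · rintro ⟨h1, h2, h3, h4⟩
    exact ⟨h1, h2, h3, by linarith⟩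
  · rintro ⟨h1, h2, h3, h4⟩
    exact ⟨h1, h2, h3, by linarith⟩

theorem F_shift {d : ℕ} {x x' : Fin k → Fin n} (h1 : ∀ l, (x l : ℕ) = x' l + d)
    (h2 : ∀ l, f (x l + 1) = f (x' l + 1)) (i j : Fin 3) (w : ℤ) :
    (k : ℝ) * (F f a b n i j (w + a * d) - F f a b n i j w) =
      H f a b n k i j w x' - H f a b n k i j (w + a * d) x := by
  rw [H_eq, H_eq]
  have : ∑ l, g f a b n i j (w + a * d) (x l + 1) = ∑ l, g f a b n i j w (x' l + 1) := by
    refine sum_congr rfl fun l _ => ?_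
    have e : (x l : ℕ) + 1 = (x' l + 1) + d := by rw [h1 l]; ring
    rw [e]
    apply g_shift
    rw [← e]
    exact h2 l
  rw [this]
  ring

/-- the number of solutions of `a x + b y = c z + t` in `{1, …, n}` with colours `i, j, l` -/
noncomputable def N3 (f : ℕ → Fin 3) (a b c n : ℕ) (i j l : Fin 3) (t : ℤ) : ℝ :=
  ∑ z ∈ (Icc 1 n).filter (fun z => f z = l), F f a b n i j (c * z + t)

end

/-- **Almost periodicity.** -/
theorem ap (a b c r : ℕ) (hb : 0 < b) (hc : 0 < c) (hr : 0 < r) (f : ℕ → Fin 3) (n : ℕ)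
    (hn : 2 * 6 ^ (2 * r ^ 2) + 1 ≤ n) :
    ∃ d : ℕ, 1 ≤ d ∧ d ≤ 2 * 6 ^ (2 * r ^ 2) ∧ ∀ (i j l : Fin 3) (t : ℤ),
      |N3 f a b c n i j l (t + a * d) - N3 f a b c n i j l t| ≤ 2 / r * (n : ℝ) ^ 2 := by
  obtain ⟨d, x, x', h1, h2, h3, h4, h5, h6⟩ := exists_pair f a b n (2 * r ^ 2) hb (by positivity) hn
  refine ⟨d, h1, h2, fun i j l t => ?_⟩
  have hr' : (0 : ℝ) < r := by exact_mod_cast hr
  have hS : (Icc 1 n).filter (fun z => f z = l) ⊆ Icc 1 n := filter_subset _ _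
  have e1 := sum_abs_H (f := f) (a := a) (b := b) hc rfl h3 i j (t + a * d) _ hS
  have e2 := sum_abs_H (f := f) (a := a) (b := b) hc rfl h4 i j t _ hS
  have e3 : ((2 * r ^ 2 : ℕ) : ℝ) * (N3 f a b c n i j l (t + a * d) - N3 f a b c n i j l t) =
      ∑ z ∈ (Icc 1 n).filter (fun z => f z = l),
        (H f a b n (2 * r ^ 2) i j (c * z + t) x' - H f a b n (2 * r ^ 2) i j (c * z + (t + a * d)) x) := by
    unfold N3
    rw [← sum_sub_distrib, mul_sum]
    refine sum_congr rfl fun z _ => ?_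
    rw [show (c : ℤ) * z + (t + a * d) = (c * z + t) + a * d by ring]
    exact F_shift h5 h6 i j _
  have e4 : |((2 * r ^ 2 : ℕ) : ℝ) * (N3 f a b c n i j l (t + a * d) - N3 f a b c n i j l t)| ≤ 4 * r * (n : ℝ) ^ 2 := by
    rw [e3]
    calc _ ≤ ∑ z ∈ (Icc 1 n).filter (fun z => f z = l),
        |H f a b n (2 * r ^ 2) i j (c * z + t) x' - H f a b n (2 * r ^ 2) i j (c * z + (t + a * d)) x| := abs_sum_le_sum_abs _ _
      _ ≤ ∑ z ∈ (Icc 1 n).filter (fun z => f z = l),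
        (|H f a b n (2 * r ^ 2) i j (c * z + t) x'| + |H f a b n (2 * r ^ 2) i j (c * z + (t + a * d)) x|) :=
          sum_le_sum fun z _ => abs_sub _ _
      _ ≤ _ := by
        rw [sum_add_distrib]
        linarith
  rw [abs_mul, abs_of_nonneg (by positivity : (0 : ℝ) ≤ ((2 * r ^ 2 : ℕ) : ℝ))] at e4
  push_cast at e4
  have e5 : 2 / (r : ℝ) * (n : ℝ) ^ 2 = (4 * r * (n : ℝ) ^ 2) / (2 * r ^ 2) := by
    field_simp
    ring
  rw [e5, le_div_iff₀ (by positivity)]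
  linarith

end Pool.Agent.Q139.Lim
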