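import Pool.Agent.Q139.Lim.Tr

/-!
# The transfer theorem and the limits
-/

set_option autoImplicit false

namespace Pool.Agent.Q139.Lim

open Finset Filter Topology

theorem tele {h : ℤ → ℝ} {D : ℤ} {η : ℝ} (hη : ∀ t, |h (t + D) - h t| ≤ η) (k : ℕ) (t : ℤ) :
    |h (t + k * D) - h t| ≤ k * η := by
  induction k with
  | zero => simp
  | succ k ih =>
    have e : t + ((k + 1 : ℕ) : ℤ) * D = (t + k * D) + D := by push_cast; ring
    rw [e]
    have h1 := hη (t + k * D)
    calc |h (t + k * D + D) - h t| = |(h (t + k * D + D) - h (t + k * D)) + (h (t + k * D) - h t)| := by ring_nf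
      _ ≤ _ := abs_add_le _ _
      _ ≤ η + k * η := add_le_add h1 ih
      _ = _ := by push_cast; ring

theorem tele' {h : ℤ → ℝ} {D : ℤ} {η : ℝ} (_h0 : 0 ≤ η) (hη : ∀ t, |h (t + D) - h t| ≤ η) (J : ℕ) (j : ℤ) (hj : |j| ≤ J) :
    |h (D * j) - h 0| ≤ J * η := by
  have hk : ∀ k : ℕ, (k : ℤ) ≤ J → (k : ℝ) * η ≤ J * η := fun k hk => by
    gcongr
    exact_mod_cast hk
  obtain ⟨k, hk1 | hk1⟩ := j.eq_nat_or_neg
  · subst hk1
    have := tele hη k 0
    rw [zero_add, mul_comm] at this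
    exact this.trans (hk k (by simpa using hj))
  · subst hk1
    have := tele hη k (-(k * D))
    rw [neg_add_cancel, abs_sub_comm] at this
    rw [mul_neg, mul_comm D]
    exact this.trans (hk k (by simpa using hj))

theorem frac {N0 T0 E1 E2 Q Nm Tm ε : ℝ} (hT : 0 < T0) (h0 : 0 ≤ N0) (hN : N0 ≤ T0) (hE : 0 ≤ E2)
    (hQ : 0 < Q) (hTm : 0 < Tm) (hNm0 : 0 ≤ Nm) (h1 : Q * (N0 - E1) ≤ Nm) (h2 : Tm ≤ Q * (T0 + E2)) (hε : 0 < ε)
    (h3 : E1 + E2 ≤ ε * T0) : N0 / T0 - ε ≤ Nm / Tm := by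
  rcases le_or_gt (N0 / T0 - ε) 0 with h | h
  · exact h.trans (by positivity)
  · rw [le_div_iff₀ hTm]
    have e1 : N0 = N0 / T0 * T0 := by field_simp
    set ρ := N0 / T0 with hρ
    have e2 : ρ ≤ 1 := by rw [hρ, div_le_one hT]; exact hN
    calc (ρ - ε) * Tm ≤ (ρ - ε) * (Q * (T0 + E2)) := by gcongr
      _ = Q * ((ρ - ε) * (T0 + E2)) := by ring
      _ ≤ Q * (N0 - E1) := by
        gcongr
        have e3 : ρ * E2 ≤ 1 * E2 := by gcongr
        have e4 : 0 ≤ ε * E2 := by positivity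
        nlinarith
      _ ≤ Nm := h1

theorem inn_ge (f : ℕ → Fin 3) (a b c n L : ℕ) (hb : 0 < b) (hc : 0 < c) (P : Finset (Fin 3 × Fin 3 × Fin 3)) (t : ℤ) :
    (sol f a b c n P t).card ≤ (inn f a b c n L P t).card + 6 * L * n := by
  classical
  set S := Icc 1 L ∪ Ioc (n - L) n with hS
  have hSc : S.card ≤ 2 * L := by
    refine (card_union_le _ _).trans ?_
    simp only [Nat.card_Icc, Nat.card_Ioc]
    omega
  have hsub : sol f a b c n P t ⊆ inn f a b c n L P t ∪
      ((sol f a b c n P t).filter fun p => p.1 ∈ S ∨ p.2.1 ∈ S ∨ p.2.2 ∈ S) := by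
    rintro ⟨x, y, z⟩ hp
    simp only [mem_union, inn, mem_filter, hp, true_and]
    have hp' := hp
    simp only [sol, mem_filter, mem_product, mem_Icc] at hp'
    obtain ⟨⟨hx, hy, hz⟩, -⟩ := hp'
    by_contra hcon
    push Not at hcon
    obtain ⟨h1, h2, h3, h4⟩ := hcon
    simp only [hS, mem_union, mem_Icc, mem_Ioc, not_or, not_and, not_le] at h2 h3 h4
    have := h1 ⟨by omega, by omega⟩ ⟨by omega, by omega⟩
    omega
  calc _ ≤ _ := card_le_card hsub
    _ ≤ _ := card_union_le _ _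
    _ ≤ (inn f a b c n L P t).card + 3 * (S.card * n) := by
      have := card_strip f a b c n hb hc P t S
      omega
    _ ≤ (inn f a b c n L P t).card + 3 * ((2 * L) * n) := by gcongr
    _ = _ := by ring

theorem near (f : ℕ → Fin 3) (a b c n : ℕ) (D : ℤ) (η : ℝ) (h0 : 0 ≤ η) (J : ℕ)
    (h : ∀ (i j l : Fin 3) (t : ℤ), |N3 f a b c n i j l (t + D) - N3 f a b c n i j l t| ≤ η)
    (P : Finset (Fin 3 × Fin 3 × Fin 3)) (j : ℤ) (hj : |j| ≤ J) :
    |((sol f a b c n P (D * j)).card : ℝ) - (sol f a b c n P 0).card| ≤ 27 * (J * η) := by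
  rw [card_sol, card_sol, ← sum_sub_distrib]
  calc _ ≤ ∑ q ∈ P, |N3 f a b c n q.1 q.2.1 q.2.2 (D * j) - N3 f a b c n q.1 q.2.1 q.2.2 0| := abs_sum_le_sum_abs _ _
    _ ≤ ∑ q ∈ P, J * η := sum_le_sum fun q _ => tele' h0 (h q.1 q.2.1 q.2.2) J j hj
    _ = P.card * (J * η) := by simp
    _ ≤ 27 * (J * η) := by
      have h1 : P.card ≤ 27 := by
        have := card_le_univ P
        simpa using this
      have h2 : (P.card : ℝ) ≤ 27 := by exact_mod_cast h1
      gcongr

theorem tail_le (g : ℕ → Fin 3) (a b c m m' : ℕ) (hb : 0 < b) (hc : 0 < c) (P : Finset (Fin 3 × Fin 3 × Fin 3)) :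
    (sol g a b c m P 0).card ≤ (sol g a b c m' P 0).card + 3 * ((m - m') * m) := by
  classical
  have hsub : sol g a b c m P 0 ⊆ sol g a b c m' P 0 ∪
      ((sol g a b c m P 0).filter fun p => p.1 ∈ Ioc m' m ∨ p.2.1 ∈ Ioc m' m ∨ p.2.2 ∈ Ioc m' m) := by
    rintro ⟨x, y, z⟩ hp
    simp only [mem_union, mem_filter, hp, true_and]
    simp only [sol, mem_filter, mem_product, mem_Icc] at hp ⊢
    obtain ⟨⟨hx, hy, hz⟩, h1, h2⟩ := hp
    simp only [mem_Ioc, h1, h2, and_true]
    omega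
  calc _ ≤ _ := card_le_card hsub
    _ ≤ _ := card_union_le _ _
    _ ≤ _ := by
      have := card_strip g a b c m hb hc P 0 (Ioc m' m)
      rw [Nat.card_Ioc] at this
      omega

theorem errs {J r L L0 N1 Q0 c n q κ ε T δ : ℝ} (hr0 : 0 < r) (hnr : 0 < n) (hqr : 0 < q) (hκ0 : 0 < κ) (hε : 0 < ε)
    (hr : 324 * J / (κ * ε) < r) (hN1 : 18 * L0 / (κ * ε) < N1) (hQ0 : 18 * L * c / (κ * ε) < Q0)
    (h2 : L ≤ L0) (h3 : N1 ≤ n) (h3' : Q0 ≤ q) (_hL : 0 ≤ L) (hT : κ * n ^ 2 ≤ T)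
    (hδ : δ = 27 * (J * (2 / r * n ^ 2))) :
    δ + 6 * L * n + (δ + 6 * L * c * n ^ 2 / q) ≤ ε * T := by
  have hke : 0 < κ * ε := by positivity
  have e1 : 2 * δ ≤ ε / 3 * (κ * n ^ 2) := by
    have h1 : 324 * J < r * (κ * ε) := by
      rw [div_lt_iff₀ hke] at hr
      exact hr
    have h2 : 2 * δ = 108 * J * n ^ 2 / r := by
      rw [hδ]
      field_simp
      ring
    rw [h2, div_le_iff₀ hr0]
    have h3 : 324 * J * n ^ 2 ≤ r * (κ * ε) * n ^ 2 := by gcongr
    linarith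
  have e2 : 6 * L * n ≤ ε / 3 * (κ * n ^ 2) := by
    have h1 : 18 * L0 < N1 * (κ * ε) := by
      rw [div_lt_iff₀ hke] at hN1
      exact hN1
    have h4 : 18 * L ≤ n * (κ * ε) := by
      calc 18 * L ≤ 18 * L0 := by gcongr
        _ ≤ N1 * (κ * ε) := h1.le
        _ ≤ n * (κ * ε) := by gcongr
    have h5 : 18 * L * n ≤ n * (κ * ε) * n := by gcongr
    linarith
  have e3 : 6 * L * c * n ^ 2 / q ≤ ε / 3 * (κ * n ^ 2) := by
    have h1 : 18 * L * c < Q0 * (κ * ε) := by
      rw [div_lt_iff₀ hke] at hQ0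
      exact hQ0
    rw [div_le_iff₀ hqr]
    have h4 : 18 * L * c ≤ q * (κ * ε) := by
      calc _ ≤ Q0 * (κ * ε) := h1.le
        _ ≤ q * (κ * ε) := by gcongr
    have h5 : 18 * L * c * n ^ 2 ≤ q * (κ * ε) * n ^ 2 := by gcongr
    linarith
  have e4 : ε * (κ * n ^ 2) ≤ ε * T := by gcongr
  linarith

/-- `g` is a surjective colouring of `{1, …, n}` -/
def IsCol (n : ℕ) (g : ℕ → Fin 3) : Prop := ∀ i, ∃ x ∈ Icc 1 n, g x = i

theorem transfer (a b c : ℕ) (ha : 0 < a) (hb : 0 < b) (hc : 0 < c) (ε : ℝ) (hε : 0 < ε) :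
    ∃ N0 : ℕ, ∀ n ≥ N0, ∀ f : ℕ → Fin 3, ∃ M0 : ℕ, ∀ m ≥ M0, ∃ g : ℕ → Fin 3, IsCol m g ∧
      ∀ P, ((sol f a b c n P 0).card : ℝ) / (sol f a b c n univ 0).card - ε ≤
        (sol g a b c m P 0).card / (sol g a b c m univ 0).card := by
  set J := a + b + c with hJ
  have hJ0 : 0 < J := by omega
  have hJr : (0 : ℝ) < J := by exact_mod_cast hJ0
  set κ : ℝ := 1 / (4 * (J : ℝ) ^ 2) with hκ
  have hκ0 : 0 < κ := by positivity
  obtain ⟨r, hr⟩ := exists_nat_gt (324 * J / (κ * ε))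
  have hr0 : (0 : ℝ) < r := lt_trans (by positivity) hr
  have hr0' : 0 < r := by exact_mod_cast hr0
  set L0 := a * (2 * 6 ^ (2 * r ^ 2)) with hL0
  obtain ⟨N1, hN1⟩ := exists_nat_gt (18 * L0 / (κ * ε))
  refine ⟨max N1 (max (2 * 6 ^ (2 * r ^ 2) + 1) (max J (L0 + 1))), ?_⟩
  intro n hn f
  simp only [ge_iff_le, max_le_iff] at hn
  obtain ⟨hn1, hn2, hn3, hn4⟩ := hn
  obtain ⟨d, hd1, hd2, hap⟩ := ap a b c r hb hc hr0' f n hn2
  set L := a * d with hL
  have hLpos : 0 < L := by positivity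
  have hLL : L ≤ L0 := by rw [hL, hL0]; gcongr
  have hLn : L < n := by omega
  have hn0 : 0 < n := by omega
  have hnr : (0 : ℝ) < n := by exact_mod_cast hn0
  obtain ⟨Q0, hQ0⟩ := exists_nat_gt (18 * L * c / (κ * ε))
  refine ⟨max (n * (L * c + Q0 + L * c + 4)) J, ?_⟩
  intro m hm
  simp only [ge_iff_le, max_le_iff] at hm
  obtain ⟨hm1, hm2⟩ := hm
  set D := m / (n - L) with hD
  set s := (D - 1) / (L * c) with hs
  set q := qq L c s with hq
  have hqs : q = 1 + L * c * s := rfl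
  have hLc : 0 < L * c := by positivity
  have hnL : 0 < n - L := by omega
  have hD1 : L * c + Q0 + L * c + 4 ≤ D := by
    rw [hD, Nat.le_div_iff_mul_le hnL]
    calc (L * c + Q0 + L * c + 4) * (n - L) ≤ (L * c + Q0 + L * c + 4) * n := by gcongr; omega
      _ = n * (L * c + Q0 + L * c + 4) := by ring
      _ ≤ m := hm1
  have hqD : q ≤ D := by
    have : L * c * s ≤ D - 1 := Nat.mul_div_le _ _
    omega
  have hDq : D + 1 ≤ q + L * c := by
    have h1 : D - 1 < L * c * (s + 1) := by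
      rw [hs]
      exact Nat.lt_mul_div_succ _ hLc
    have h2 : L * c * (s + 1) = L * c * s + L * c := by ring
    omega
  have hq3 : 3 ≤ q := by omega
  have hqQ : Q0 ≤ q := by omega
  have hqL : L * c ≤ q := by omega
  have hmq : q * (n - L) ≤ m := by
    calc q * (n - L) ≤ D * (n - L) := by gcongr
      _ ≤ m := Nat.div_mul_le_self _ _
  have hmq2 : m ≤ (q + L * c) * (n - L) := by
    have h1 : m < (D + 1) * (n - L) := by
      have h2 := Nat.div_add_mod m (n - L)
      have h3 := Nat.mod_lt m hnL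
      rw [hD]
      calc m = (n - L) * (m / (n - L)) + m % (n - L) := h2.symm
        _ < (n - L) * (m / (n - L)) + (n - L) := by omega
        _ = _ := by ring
    calc m ≤ (D + 1) * (n - L) := h1.le
      _ ≤ _ := by gcongr
  set g : ℕ → Fin 3 := fun x => if x = 1 then 0 else if x = 2 then 1 else if x = 3 then 2 else f (phi L c s x).toNat with hg
  have hm3 : 3 ≤ m := by
    have : 1 ≤ n := hn0
    nlinarith
  refine ⟨g, ?_, fun P => ?_⟩
  · intro i
    fin_cases i
    · exact ⟨1, by simp; omega, by simp [hg]⟩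
    · exact ⟨2, by simp; omega, by simp [hg]⟩
    · exact ⟨3, by simp; omega, by simp [hg]⟩
  -- the estimates
  set δ : ℝ := 27 * (J * (2 / r * (n : ℝ) ^ 2)) with hδ
  have hap' : ∀ (i j l : Fin 3) (t : ℤ), |N3 f a b c n i j l (t + (L : ℤ)) - N3 f a b c n i j l t| ≤ 2 / r * (n : ℝ) ^ 2 := by
    intro i j l t
    have := hap i j l t
    rw [hL]
    push_cast
    exact this
  have hnear : ∀ (P : Finset (Fin 3 × Fin 3 × Fin 3)) (j : ℤ), |j| ≤ J →
      |((sol f a b c n P (L * j)).card : ℝ) - (sol f a b c n P 0).card| ≤ δ := fun P j hj =>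
    near f a b c n L _ (by positivity) J hap' P j hj
  have hjj : ∀ p ∈ range q ×ˢ range q, |jj a b L c s p.1 p.2| ≤ (J : ℤ) := by
    rintro ⟨u, v⟩ hp
    simp only [mem_product, mem_range] at hp
    exact jj_abs (by positivity) (by exact_mod_cast hp.1) (by positivity) (by exact_mod_cast hp.2)
  have hcardq : (range q ×ˢ range q).card = q ^ 2 := by
    rw [card_product, card_range]
    ring
  have hlow : (q : ℝ) ^ 2 * ((sol f a b c n P 0).card - (δ + 6 * L * n)) ≤ (sol g a b c m P 0).card := by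
    have h1 := lower (a := a) (b := b) (L := L) (c := c) (s := s) f (n := n) (m := m) P hq3 (by
      have : (n : ℤ) - L = ((n - L : ℕ) : ℤ) := by push_cast [Nat.cast_sub hLn.le]; ring
      rw [this]
      exact_mod_cast hmq) g (by
        intro x hx _
        simp only [hg]
        rw [if_neg (by omega), if_neg (by omega), if_neg (by omega)])
    have h2 : (∑ p ∈ range q ×ˢ range q, (inn f a b c n L P (L * jj a b L c s p.1 p.2)).card : ℝ) ≤
        (sol g a b c m P 0).card := by exact_mod_cast h1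
    refine le_trans ?_ h2
    have h3 : ∀ p ∈ range q ×ˢ range q, ((sol f a b c n P 0).card : ℝ) - (δ + 6 * L * n) ≤
        ((inn f a b c n L P (L * jj a b L c s p.1 p.2)).card : ℝ) := by
      intro p hp
      have h4 := (abs_le.mp (hnear P _ (hjj p hp))).1
      have h5 := inn_ge f a b c n L hb hc P (L * jj a b L c s p.1 p.2)
      have h6 : ((sol f a b c n P (L * jj a b L c s p.1 p.2)).card : ℝ) ≤
          (inn f a b c n L P (L * jj a b L c s p.1 p.2)).card + 6 * L * n := by exact_mod_cast h5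
      linarith
    have h4 := sum_le_sum h3
    rw [sum_const, hcardq, nsmul_eq_mul] at h4
    push_cast at h4
    exact h4
  have hup : ((sol g a b c m univ 0).card : ℝ) ≤ (q : ℝ) ^ 2 * ((sol f a b c n univ 0).card + (δ + 6 * L * c * (n : ℝ) ^ 2 / q)) := by
    have h1 := upper (a := a) (b := b) (L := L) (c := c) (s := s) f g (n := n) (m := q * (n - L)) (by
      push_cast [Nat.cast_sub hLn.le]
      exact le_refl _)
    have h2 : ((sol g a b c (q * (n - L)) univ 0).card : ℝ) ≤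
        ∑ p ∈ range q ×ˢ range q, ((sol f a b c n univ (L * jj a b L c s p.1 p.2)).card : ℝ) := by exact_mod_cast h1
    have h3 : ∀ p ∈ range q ×ˢ range q, ((sol f a b c n univ (L * jj a b L c s p.1 p.2)).card : ℝ) ≤
        (sol f a b c n univ 0).card + δ := by
      intro p hp
      have h4 := (abs_le.mp (hnear univ _ (hjj p hp))).2
      linarith
    have h4 := sum_le_sum h3
    rw [sum_const, hcardq, nsmul_eq_mul] at h4
    push_cast at h4
    have h5 := tail_le g a b c m (q * (n - L)) hb hc univ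
    have h6 : ((sol g a b c m univ 0).card : ℝ) ≤ (sol g a b c (q * (n - L)) univ 0).card +
        3 * (((m - q * (n - L) : ℕ) : ℝ) * m) := by exact_mod_cast h5
    have h7 : m - q * (n - L) ≤ L * c * n := by
      have : (q + L * c) * (n - L) = q * (n - L) + L * c * (n - L) := by ring
      have h8 : L * c * (n - L) ≤ L * c * n := by gcongr; omega
      omega
    have h8 : m ≤ 2 * q * n := by
      calc m ≤ (q + L * c) * (n - L) := hmq2
        _ ≤ (q + q) * n := by gcongr; omega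
        _ = _ := by ring
    have h9 : (((m - q * (n - L) : ℕ) : ℝ) * m) ≤ (L * c * n) * (2 * q * n) := by
      have e1 : ((m - q * (n - L) : ℕ) : ℝ) ≤ L * c * n := by exact_mod_cast h7
      have e2 : (m : ℝ) ≤ 2 * q * n := by exact_mod_cast h8
      gcongr
    have hqr : (0 : ℝ) < q := by
      have : 0 < q := by omega
      exact_mod_cast this
    have e : (q : ℝ) ^ 2 * ((sol f a b c n univ 0).card + (δ + 6 * L * c * (n : ℝ) ^ 2 / q)) =
        (q : ℝ) ^ 2 * ((sol f a b c n univ 0).card + δ) + 3 * ((L * c * n) * (2 * q * n)) := by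
      field_simp
      ring
    rw [e]
    linarith
  have hT0 := many f a b c n ha hb hc hn3
  have hTm := many g a b c m ha hb hc hm2
  have hmr : (0 : ℝ) < m := by
    have : 0 < m := by omega
    exact_mod_cast this
  have hqr : (0 : ℝ) < q := by
    have : 0 < q := by omega
    exact_mod_cast this
  have hT0' : κ * (n : ℝ) ^ 2 ≤ (sol f a b c n univ 0).card := by
    refine le_trans (le_of_eq ?_) hT0
    rw [hκ, hJ]
    field_simp
  refine frac (Q := (q : ℝ) ^ 2) (E1 := δ + 6 * L * n) (E2 := δ + 6 * L * c * (n : ℝ) ^ 2 / q) ?_ (by positivity) ?_ (by positivity)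
    (by positivity) ?_ (by positivity) hlow hup hε ?_
  · exact lt_of_lt_of_le (by positivity) hT0'
  · have : (sol f a b c n P 0).card ≤ (sol f a b c n univ 0).card := by
      apply card_le_card
      intro p hp
      simp only [sol, mem_filter, mem_univ, and_true] at hp ⊢
      exact ⟨hp.1, hp.2.1⟩
    exact_mod_cast this
  · exact lt_of_lt_of_le (by positivity) hTm
  · exact errs hr0 hnr hqr hκ0 hε hr hN1 hQ0 (by exact_mod_cast hLL) (by exact_mod_cast hn1) (by exact_mod_cast hqQ)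
      (by positivity) hT0' rfl

/-- the suprema converge -/
theorem lim_exists (S : ℕ → Set ℝ) (hS : ∀ n, ∀ r ∈ S n, -1 ≤ r ∧ r ≤ 1) (hne : ∀ᶠ n in atTop, (S n).Nonempty)
    (h : ∀ ε : ℝ, 0 < ε → ∃ N0 : ℕ, ∀ n ≥ N0, ∀ r ∈ S n, ∃ M0 : ℕ, ∀ m ≥ M0, ∃ r' ∈ S m, r - ε ≤ r') :
    ∃ ℓ : ℝ, Tendsto (fun n => sSup (S n)) atTop (𝓝 ℓ) := by
  have hbdd : ∀ n, BddAbove (S n) := fun n => ⟨1, fun r hr => (hS n r hr).2⟩
  have hle : ∀ n, sSup (S n) ≤ 1 := fun n => Real.sSup_le (fun r hr => (hS n r hr).2) zero_le_one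
  have hge : ∀ n, -1 ≤ sSup (S n) := by
    intro n
    rcases (S n).eq_empty_or_nonempty with h0 | ⟨r, hr⟩
    · rw [h0, Real.sSup_empty]
      norm_num
    · exact (hS n r hr).1.trans (le_csSup (hbdd n) hr)
  have b1 : IsBoundedUnder (· ≤ ·) atTop (fun n => sSup (S n)) := isBoundedUnder_of ⟨1, hle⟩
  have b2 : IsBoundedUnder (· ≥ ·) atTop (fun n => sSup (S n)) := isBoundedUnder_of ⟨-1, hge⟩
  refine ⟨liminf (fun n => sSup (S n)) atTop, tendsto_of_le_liminf_of_limsup_le le_rfl ?_ b1 b2⟩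
  refine le_of_forall_pos_le_add fun ε hε => ?_
  obtain ⟨N0, hN0⟩ := h (ε / 2) (by positivity)
  refine limsup_le_of_le (b2.isCoboundedUnder_le) ?_
  filter_upwards [eventually_ge_atTop N0, hne] with n hn hnn
  obtain ⟨r, hr, hr'⟩ := exists_lt_of_lt_csSup hnn (show sSup (S n) - ε / 2 < sSup (S n) by linarith)
  obtain ⟨M0, hM0⟩ := hN0 n hn r hr
  have : sSup (S n) - ε ≤ liminf (fun n => sSup (S n)) atTop := by
    refine le_liminf_of_le (b1.isCoboundedUnder_ge) ?_
    filter_upwards [eventually_ge_atTop M0] with m hm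
    obtain ⟨r', h1, h2⟩ := hM0 m hm
    have := le_csSup (hbdd m) h1
    linarith
  linarith

end Pool.Agent.Q139.Lim
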