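import Pool.Agent.Q139.Lim.AP

/-!
# Coloured solutions: counting lemmas
-/

set_option autoImplicit false

namespace Pool.Agent.Q139.Lim

open Finset

/-- the solutions of `a x + b y = c z + t` in `{1, …, n}` whose colour pattern is in `P` -/
def sol (f : ℕ → Fin 3) (a b c n : ℕ) (P : Finset (Fin 3 × Fin 3 × Fin 3)) (t : ℤ) : Finset (ℕ × ℕ × ℕ) :=
  (Icc 1 n ×ˢ Icc 1 n ×ˢ Icc 1 n).filter fun p =>
    (a : ℤ) * p.1 + b * p.2.1 = c * p.2.2 + t ∧ (f p.1, f p.2.1, f p.2.2) ∈ P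

theorem ite_P (P : Finset (Fin 3 × Fin 3 × Fin 3)) (A : Prop) [Decidable A] (v : Fin 3 × Fin 3 × Fin 3) :
    (if A ∧ v ∈ P then (1 : ℝ) else 0) = ∑ q ∈ P, if A ∧ v = q then 1 else 0 := by
  by_cases hA : A
  · simp [hA]
  · simp [hA]

theorem sum_fin (n : ℕ) (h : ℕ → ℝ) : ∑ x : Fin n, h (x + 1) = ∑ x ∈ Icc 1 n, h x := by
  rw [Fin.sum_univ_eq_sum_range (fun x => h (x + 1)) n, range_eq_Ico, sum_Ico_add']
  rfl

theorem card_sol (f : ℕ → Fin 3) (a b c n : ℕ) (P : Finset (Fin 3 × Fin 3 × Fin 3)) (t : ℤ) :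
    ((sol f a b c n P t).card : ℝ) = ∑ q ∈ P, N3 f a b c n q.1 q.2.1 q.2.2 t := by
  have h1 : ((sol f a b c n P t).card : ℝ) = ∑ x ∈ Icc 1 n, ∑ y ∈ Icc 1 n, ∑ z ∈ Icc 1 n,
      if ((a : ℤ) * x + b * y = c * z + t) ∧ (f x, f y, f z) ∈ P then (1 : ℝ) else 0 := by
    unfold sol
    rw [card_filter, sum_product]
    push_cast
    refine sum_congr rfl fun x _ => ?_
    rw [sum_product]
  have h2 : ∀ q : Fin 3 × Fin 3 × Fin 3, N3 f a b c n q.1 q.2.1 q.2.2 t =
      ∑ x ∈ Icc 1 n, ∑ y ∈ Icc 1 n, ∑ z ∈ Icc 1 n,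
        if ((a : ℤ) * x + b * y = c * z + t) ∧ (f x, f y, f z) = q then (1 : ℝ) else 0 := by
    rintro ⟨i, j, l⟩
    unfold N3 F
    have e1 : ∀ z, ∑ x : Fin n, g f a b n i j (c * z + t) (x + 1) = ∑ x ∈ Icc 1 n, g f a b n i j (c * z + t) x :=
      fun z => sum_fin n (fun x => g f a b n i j (c * z + t) x)
    simp only [e1]
    rw [sum_filter]
    have e2 : ∀ z ∈ Icc 1 n, (if f z = l then ∑ x ∈ Icc 1 n, g f a b n i j (c * z + t) x else 0) =
        ∑ x ∈ Icc 1 n, ∑ y ∈ Icc 1 n,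
          if ((a : ℤ) * x + b * y = c * z + t) ∧ (f x, f y, f z) = (i, j, l) then (1 : ℝ) else 0 := by
      intro z _
      by_cases hz : f z = l
      · rw [if_pos hz]
        refine sum_congr rfl fun x _ => ?_
        unfold g
        rw [card_filter]
        push_cast
        refine sum_congr rfl fun y _ => ?_
        congr 1
        simp only [Prod.mk.injEq, hz, and_true, eq_iff_iff]
        tauto
      · rw [if_neg hz]
        symm
        refine sum_eq_zero fun x _ => sum_eq_zero fun y _ => ?_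
        rw [if_neg]
        simp only [Prod.mk.injEq]
        tauto
    rw [sum_congr rfl e2, sum_comm]
    refine sum_congr rfl fun x _ => ?_
    rw [sum_comm]
  rw [h1]
  simp only [ite_P, h2]
  rw [sum_comm]
  have : ∀ y : ℕ, y = y := fun _ => rfl
  calc _ = ∑ x ∈ Icc 1 n, ∑ y ∈ Icc 1 n, ∑ q ∈ P, ∑ z ∈ Icc 1 n,
        if ((a : ℤ) * x + b * y = c * z + t) ∧ (f x, f y, f z) = q then (1 : ℝ) else 0 := by
        rw [sum_comm]
        exact sum_congr rfl fun x _ => sum_congr rfl fun y _ => sum_comm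
    _ = ∑ x ∈ Icc 1 n, ∑ q ∈ P, ∑ y ∈ Icc 1 n, ∑ z ∈ Icc 1 n,
        if ((a : ℤ) * x + b * y = c * z + t) ∧ (f x, f y, f z) = q then (1 : ℝ) else 0 :=
        sum_congr rfl fun x _ => sum_comm
    _ = _ := sum_comm

/-- the solutions with a coordinate in a small set -/
theorem card_strip (f : ℕ → Fin 3) (a b c n : ℕ) (hb : 0 < b) (hc : 0 < c)
    (P : Finset (Fin 3 × Fin 3 × Fin 3)) (t : ℤ) (S : Finset ℕ) :
    ((sol f a b c n P t).filter fun p => p.1 ∈ S ∨ p.2.1 ∈ S ∨ p.2.2 ∈ S).card ≤ 3 * (S.card * n) := by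
  have hb' : (b : ℤ) ≠ 0 := by exact_mod_cast hb.ne'
  have hc' : (c : ℤ) ≠ 0 := by exact_mod_cast hc.ne'
  have hsub : ((sol f a b c n P t).filter fun p => p.1 ∈ S ∨ p.2.1 ∈ S ∨ p.2.2 ∈ S) ⊆
      ((sol f a b c n P t).filter fun p => p.1 ∈ S) ∪ (((sol f a b c n P t).filter fun p => p.2.1 ∈ S) ∪
        ((sol f a b c n P t).filter fun p => p.2.2 ∈ S)) := by
    intro p hp
    simp only [mem_filter, mem_union] at hp ⊢
    tauto
  have hn : (Icc 1 n).card = n := by simp
  have h1 : ((sol f a b c n P t).filter fun p => p.1 ∈ S).card ≤ S.card * n := by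
    rw [← hn, ← card_product, hn]
    refine card_le_card_of_injOn (fun p => (p.1, p.2.1)) ?_ ?_
    · intro p hp
      simp only [sol, coe_filter, mem_filter, mem_product, Set.mem_ofPred_eq] at hp
      simp only [coe_product, Set.mem_prod, mem_coe]
      exact ⟨hp.2, hp.1.1.2.1⟩
    · rintro ⟨x, y, z⟩ hp ⟨x', y', z'⟩ hp' h
      simp only [sol, coe_filter, mem_filter, Set.mem_ofPred_eq] at hp hp'
      simp only [Prod.mk.injEq] at h
      obtain ⟨rfl, rfl⟩ := h
      have : (c : ℤ) * z = c * z' := by linarith [hp.1.2.1, hp'.1.2.1]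
      have := mul_left_cancel₀ hc' this
      simp only [Prod.mk.injEq, true_and]
      exact_mod_cast this
  have h2 : ((sol f a b c n P t).filter fun p => p.2.1 ∈ S).card ≤ S.card * n := by
    rw [← hn, ← card_product, hn]
    refine card_le_card_of_injOn (fun p => (p.2.1, p.1)) ?_ ?_
    · intro p hp
      simp only [sol, coe_filter, mem_filter, mem_product, Set.mem_ofPred_eq] at hp
      simp only [coe_product, Set.mem_prod, mem_coe]
      exact ⟨hp.2, hp.1.1.1⟩
    · rintro ⟨x, y, z⟩ hp ⟨x', y', z'⟩ hp' h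
      simp only [sol, coe_filter, mem_filter, Set.mem_ofPred_eq] at hp hp'
      simp only [Prod.mk.injEq] at h
      obtain ⟨rfl, rfl⟩ := h
      have : (c : ℤ) * z = c * z' := by linarith [hp.1.2.1, hp'.1.2.1]
      have := mul_left_cancel₀ hc' this
      simp only [Prod.mk.injEq, true_and]
      exact_mod_cast this
  have h3 : ((sol f a b c n P t).filter fun p => p.2.2 ∈ S).card ≤ S.card * n := by
    rw [← hn, ← card_product, hn]
    refine card_le_card_of_injOn (fun p => (p.2.2, p.1)) ?_ ?_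
    · intro p hp
      simp only [sol, coe_filter, mem_filter, mem_product, Set.mem_ofPred_eq] at hp
      simp only [coe_product, Set.mem_prod, mem_coe]
      exact ⟨hp.2, hp.1.1.1⟩
    · rintro ⟨x, y, z⟩ hp ⟨x', y', z'⟩ hp' h
      simp only [sol, coe_filter, mem_filter, Set.mem_ofPred_eq] at hp hp'
      simp only [Prod.mk.injEq] at h
      obtain ⟨rfl, rfl⟩ := h
      have : (b : ℤ) * y = b * y' := by linarith [hp.1.2.1, hp'.1.2.1]
      have := mul_left_cancel₀ hb' this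
      simp only [Prod.mk.injEq, true_and, and_true]
      exact_mod_cast this
  calc _ ≤ _ := card_le_card hsub
    _ ≤ _ := card_union_le _ _
    _ ≤ S.card * n + (S.card * n + S.card * n) := add_le_add h1 (le_trans (card_union_le _ _) (add_le_add h2 h3))
    _ = _ := by ring

/-- many solutions -/
theorem many (f : ℕ → Fin 3) (a b c n : ℕ) (ha : 0 < a) (hb : 0 < b) (hc : 0 < c) (hn : a + b + c ≤ n) :
    (n : ℝ) ^ 2 / (4 * ((a + b + c : ℕ) : ℝ) ^ 2) ≤ (sol f a b c n univ 0).card := by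
  set K := a + b + c with hK
  have hK0 : 0 < K := by omega
  have h1 : (n / K) ^ 2 ≤ (sol f a b c n univ 0).card := by
    have e : (n / K) ^ 2 = (Icc 1 (n / K) ×ˢ Icc 1 (n / K)).card := by
      rw [card_product]
      simp [sq]
    rw [e]
    refine card_le_card_of_injOn (fun p => (c * p.1, c * p.2, a * p.1 + b * p.2)) ?_ ?_
    · rintro ⟨s, t⟩ hp
      simp only [coe_product, Set.mem_prod, mem_coe, mem_Icc] at hp
      obtain ⟨⟨h1, h2⟩, h3, h4⟩ := hp
      have h5 : K * (n / K) ≤ n := Nat.mul_div_le n K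
      simp only [sol, coe_filter, Set.mem_ofPred_eq, mem_product, mem_Icc, mem_univ, and_true]
      refine ⟨⟨⟨?_, ?_⟩, ⟨?_, ?_⟩, ?_, ?_⟩, ?_⟩
      · nlinarith
      · calc c * s ≤ K * (n / K) := Nat.mul_le_mul (by omega) h2
          _ ≤ n := h5
      · nlinarith
      · calc c * t ≤ K * (n / K) := Nat.mul_le_mul (by omega) h4
          _ ≤ n := h5
      · nlinarith
      · calc a * s + b * t ≤ a * (n / K) + b * (n / K) := by gcongr
          _ ≤ K * (n / K) := by rw [← add_mul]; gcongr; omega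
          _ ≤ n := h5
      · push_cast
        ring
    · rintro ⟨s, t⟩ _ ⟨s', t'⟩ _ h
      simp only [Prod.mk.injEq] at h
      exact Prod.ext (Nat.eq_of_mul_eq_mul_left hc h.1) (Nat.eq_of_mul_eq_mul_left hc h.2.1)
  have h2 : n ≤ 2 * K * (n / K) := by
    have h3 : 1 ≤ n / K := (Nat.one_le_div_iff hK0).mpr hn
    have h4 : n % K < K := Nat.mod_lt _ hK0
    have h5 := Nat.div_add_mod n K
    nlinarith
  have h3 : (n : ℝ) ≤ 2 * K * ((n / K : ℕ) : ℝ) := by exact_mod_cast h2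
  have h4 : ((n / K : ℕ) : ℝ) ^ 2 ≤ (sol f a b c n univ 0).card := by exact_mod_cast h1
  have hK' : (0 : ℝ) < K := by exact_mod_cast hK0
  rw [div_le_iff₀ (by positivity)]
  calc (n : ℝ) ^ 2 ≤ (2 * K * ((n / K : ℕ) : ℝ)) ^ 2 := by gcongr
    _ = ((n / K : ℕ) : ℝ) ^ 2 * (4 * (K : ℝ) ^ 2) := by ring
    _ ≤ _ := by gcongr

end Pool.Agent.Q139.Lim
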