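import Pool.Agent.Q139.Lim.Sol

/-!
# The transfer of a colouring of `{1, …, n}` to `{1, …, m}`

Let `q = 1 + L c s`.  Every integer `x` has exactly one representation `x = q x' - L u` with
`0 ≤ u < q`, namely with `x' = φ x = x - L ⌊c s x / q⌋`.
-/

set_option autoImplicit false

namespace Pool.Agent.Q139.Lim

open Finset

/-- the modulus -/
def qq (L c s : ℕ) : ℕ := 1 + L * c * s

/-- the map `x ↦ x'` -/
def phi (L c s : ℕ) (x : ℤ) : ℤ := x - L * ((c * s * x) / (qq L c s : ℤ))

/-- the remainder `u` -/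
def rem (L c s : ℕ) (x : ℤ) : ℤ := (c * s * x) % (qq L c s : ℤ)

variable {L c s : ℕ}

theorem qq_pos : (0 : ℤ) < (qq L c s : ℤ) := by
  unfold qq
  positivity

theorem qq_cast : (qq L c s : ℤ) = 1 + L * c * s := by
  unfold qq
  push_cast
  ring

theorem phi_lift {x u : ℤ} (h0 : 0 ≤ u) (h1 : u < qq L c s) : phi L c s (qq L c s * x - L * u) = x := by
  unfold phi
  have e : (c : ℤ) * s * (qq L c s * x - L * u) = u + qq L c s * (c * s * x - u) := by
    rw [qq_cast]
    ring
  rw [e, Int.add_mul_ediv_left _ _ qq_pos.ne', Int.ediv_eq_zero_of_lt h0 h1, qq_cast]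
  ring

theorem phi_spec (x : ℤ) : x = qq L c s * phi L c s x - L * rem L c s x := by
  have h := Int.mul_ediv_add_emod (c * s * x) (qq L c s : ℤ)
  unfold phi rem
  set e := (c * s * x) / (qq L c s : ℤ)
  set r := (c * s * x) % (qq L c s : ℤ)
  rw [qq_cast] at h ⊢
  linear_combination (L : ℤ) * h

theorem rem_nonneg (x : ℤ) : 0 ≤ rem L c s x := Int.emod_nonneg _ qq_pos.ne'

theorem rem_lt (x : ℤ) : rem L c s x < qq L c s := Int.emod_lt_of_pos _ qq_pos

theorem phi_pos {x : ℤ} (hx : 1 ≤ x) : 1 ≤ phi L c s x := by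
  have h1 := phi_spec (L := L) (c := c) (s := s) x
  have h2 := rem_nonneg (L := L) (c := c) (s := s) x
  have h3 : (0 : ℤ) < qq L c s := qq_pos
  by_contra h
  push Not at h
  have h4 : phi L c s x ≤ 0 := by omega
  have h5 : (qq L c s : ℤ) * phi L c s x ≤ 0 := mul_nonpos_of_nonneg_of_nonpos h3.le h4
  have h6 : 0 ≤ (L : ℤ) * rem L c s x := by positivity
  linarith

theorem phi_le {x : ℤ} {n : ℤ} (hx : x ≤ qq L c s * (n - L)) : phi L c s x ≤ n := by
  have h1 := phi_spec (L := L) (c := c) (s := s) x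
  have h2 := rem_lt (L := L) (c := c) (s := s) x
  have h3 : (0 : ℤ) < qq L c s := qq_pos
  by_contra h
  push Not at h
  have h6 : (L : ℤ) * rem L c s x ≤ L * qq L c s := by gcongr
  have h7 : (qq L c s : ℤ) * phi L c s x ≤ qq L c s * n := by linarith
  have h8 := le_of_mul_le_mul_left h7 h3
  omega

/-- the third remainder -/
def ww (a b : ℕ) (L c s : ℕ) (u v : ℤ) : ℤ := (-(L * s * (a * u + b * v))) % (qq L c s : ℤ)

/-- the quotient -/
def jj (a b : ℕ) (L c s : ℕ) (u v : ℤ) : ℤ := (a * u + b * v - c * ww a b L c s u v) / (qq L c s : ℤ)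

variable {a b : ℕ}

theorem ww_nonneg (u v : ℤ) : 0 ≤ ww a b L c s u v := Int.emod_nonneg _ qq_pos.ne'

theorem ww_lt (u v : ℤ) : ww a b L c s u v < qq L c s := Int.emod_lt_of_pos _ qq_pos

theorem ww_dvd (u v : ℤ) : (qq L c s : ℤ) ∣ a * u + b * v - c * ww a b L c s u v := by
  have h := Int.mul_ediv_add_emod (-(L * s * (a * u + b * v))) (qq L c s : ℤ)
  unfold ww
  set e := (-(L * s * (a * u + b * v))) / (qq L c s : ℤ)
  set r := (-(L * s * (a * u + b * v))) % (qq L c s : ℤ)
  refine ⟨a * u + b * v + c * e, ?_⟩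
  rw [qq_cast] at h ⊢
  linear_combination (-(c : ℤ)) * h

theorem jj_spec (u v : ℤ) : (qq L c s : ℤ) * jj a b L c s u v = a * u + b * v - c * ww a b L c s u v :=
  Int.mul_ediv_cancel' (ww_dvd u v)

theorem ww_unique {u v w : ℤ} (h0 : 0 ≤ w) (h1 : w < qq L c s) (hd : (qq L c s : ℤ) ∣ a * u + b * v - c * w) :
    w = ww a b L c s u v := by
  have h2 := ww_dvd (a := a) (b := b) (L := L) (c := c) (s := s) u v
  have h3 : (qq L c s : ℤ) ∣ c * (w - ww a b L c s u v) := by
    have := dvd_sub h2 hd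
    have e : (a : ℤ) * u + b * v - c * ww a b L c s u v - (a * u + b * v - c * w) = c * (w - ww a b L c s u v) := by ring
    rwa [e] at this
  have h4 : (qq L c s : ℤ) ∣ w - ww a b L c s u v := by
    have h5 := dvd_sub (Dvd.dvd.mul_right (dvd_refl (qq L c s : ℤ)) (w - ww a b L c s u v)) (h3.mul_left (L * s : ℤ))
    have e : (qq L c s : ℤ) * (w - ww a b L c s u v) - L * s * (c * (w - ww a b L c s u v)) = w - ww a b L c s u v := by
      rw [qq_cast]
      ring
    rwa [e] at h5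
  have h5 := ww_nonneg (a := a) (b := b) (L := L) (c := c) (s := s) u v
  have h6 := ww_lt (a := a) (b := b) (L := L) (c := c) (s := s) u v
  have h7 : w - ww a b L c s u v = 0 := Int.eq_zero_of_abs_lt_dvd h4 (by rw [abs_lt]; constructor <;> linarith)
  linarith

theorem jj_abs {u v : ℤ} (hu : 0 ≤ u) (hu' : u < qq L c s) (hv : 0 ≤ v) (hv' : v < qq L c s) :
    |jj a b L c s u v| ≤ ((a + b + c : ℕ) : ℤ) := by
  have h := jj_spec (a := a) (b := b) (L := L) (c := c) (s := s) u v
  have h1 := ww_nonneg (a := a) (b := b) (L := L) (c := c) (s := s) u v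
  have h2 := ww_lt (a := a) (b := b) (L := L) (c := c) (s := s) u v
  have h3 : (0 : ℤ) < qq L c s := qq_pos
  have ha : (0 : ℤ) ≤ a := by positivity
  have hb : (0 : ℤ) ≤ b := by positivity
  have hc : (0 : ℤ) ≤ c := by positivity
  rw [abs_le]
  push_cast
  constructor
  · have : (qq L c s : ℤ) * (-(a + b + c)) ≤ qq L c s * jj a b L c s u v := by nlinarith
    exact le_of_mul_le_mul_left this h3
  · have : (qq L c s : ℤ) * jj a b L c s u v ≤ qq L c s * (a + b + c) := by nlinarith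
    exact le_of_mul_le_mul_left this h3

/-- the interior solutions -/
def inn (f : ℕ → Fin 3) (a b c n L : ℕ) (P : Finset (Fin 3 × Fin 3 × Fin 3)) (t : ℤ) : Finset (ℕ × ℕ × ℕ) :=
  (sol f a b c n P t).filter fun p => (L < p.1 ∧ p.1 + L ≤ n) ∧ (L < p.2.1 ∧ p.2.1 + L ≤ n) ∧ (L < p.2.2 ∧ p.2.2 + L ≤ n)

theorem lower (f : ℕ → Fin 3) {n m : ℕ} (P : Finset (Fin 3 × Fin 3 × Fin 3)) (hq : 3 ≤ qq L c s)
    (hm : (qq L c s : ℤ) * (n - L) ≤ m) (g : ℕ → Fin 3)
    (hg : ∀ x : ℕ, 3 < x → (x : ℤ) ≤ qq L c s * (n - L) → g x = f (phi L c s x).toNat) :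
    ∑ p ∈ range (qq L c s) ×ˢ range (qq L c s), (inn f a b c n L P (L * jj a b L c s p.1 p.2)).card ≤
      (sol g a b c m P 0).card := by
  rw [← card_sigma]
  have hq' : (3 : ℤ) ≤ qq L c s := by exact_mod_cast hq
  -- bounds of a lift
  have key : ∀ (x : ℕ) (u : ℤ), 0 ≤ u → u < qq L c s → L < x → x + L ≤ n →
      3 < (qq L c s : ℤ) * x - L * u ∧ (qq L c s : ℤ) * x - L * u ≤ qq L c s * (n - L) ∧
      (1 : ℤ) ≤ (qq L c s : ℤ) * x - L * u ∧ (qq L c s : ℤ) * x - L * u ≤ m ∧
      g ((qq L c s : ℤ) * x - L * u).toNat = f x := by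
    intro x u h1 h2 h3 h4
    have h3' : (L : ℤ) + 1 ≤ x := by exact_mod_cast h3
    have h4' : (x : ℤ) + L ≤ n := by exact_mod_cast h4
    have hL : (0 : ℤ) ≤ L := by positivity
    have e1 : (qq L c s : ℤ) * (L + 1) ≤ qq L c s * x := by gcongr
    have e2 : (L : ℤ) * u ≤ L * qq L c s := by gcongr
    have e3 : (3 : ℤ) < (qq L c s : ℤ) * x - L * u := by
      rcases Nat.eq_zero_or_pos L with h | h
      · exfalso
        subst h
        simp [qq] at hq
      · have hL1 : (1 : ℤ) ≤ L := by exact_mod_cast h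
        have e4 : (L : ℤ) * u ≤ L * (qq L c s - 1) := by
          gcongr
          omega
        nlinarith
    have e5 : (qq L c s : ℤ) * x - L * u ≤ qq L c s * (n - L) := by
      have : (qq L c s : ℤ) * x ≤ qq L c s * (n - L) := by
        gcongr
        linarith
      have h0 : 0 ≤ (L : ℤ) * u := by positivity
      linarith
    refine ⟨e3, e5, by linarith, by linarith, ?_⟩
    have e6 : (((qq L c s : ℤ) * x - L * u).toNat : ℤ) = (qq L c s : ℤ) * x - L * u := Int.toNat_of_nonneg (by linarith)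
    rw [hg _ (by have : (3 : ℤ) < (((qq L c s : ℤ) * x - L * u).toNat : ℤ) := by rw [e6]; exact e3
                 exact_mod_cast this) (by rw [e6]; exact e5), e6, phi_lift h1 h2]
    simp
  refine card_le_card_of_injOn (fun d : (_ : ℕ × ℕ) × (ℕ × ℕ × ℕ) => (((qq L c s : ℤ) * d.2.1 - L * d.1.1).toNat,
    ((qq L c s : ℤ) * d.2.2.1 - L * d.1.2).toNat, ((qq L c s : ℤ) * d.2.2.2 - L * ww a b L c s d.1.1 d.1.2).toNat)) ?_ ?_
  · rintro ⟨⟨u, v⟩, ⟨x, y, z⟩⟩ hd
    simp only [mem_coe, mem_sigma, mem_product, mem_range, inn, mem_filter, sol, mem_Icc] at hd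
    obtain ⟨⟨hu, hv⟩, ⟨-, heq, hP⟩, hx, hy, hz⟩ := hd
    have hu' : (u : ℤ) < qq L c s := by exact_mod_cast hu
    have hv' : (v : ℤ) < qq L c s := by exact_mod_cast hv
    obtain ⟨x1, x2, x3, x4, x5⟩ := key x u (by positivity) hu' hx.1 hx.2
    obtain ⟨y1, y2, y3, y4, y5⟩ := key y v (by positivity) hv' hy.1 hy.2
    obtain ⟨z1, z2, z3, z4, z5⟩ := key z (ww a b L c s u v) (ww_nonneg _ _) (ww_lt _ _) hz.1 hz.2
    simp only [mem_coe, sol, mem_filter, mem_product, mem_Icc]
    rw [x5, y5, z5]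
    refine ⟨⟨⟨by omega, by omega⟩, ⟨by omega, by omega⟩, by omega, by omega⟩, ?_, hP⟩
    rw [Int.toNat_of_nonneg (by linarith), Int.toNat_of_nonneg (by linarith), Int.toNat_of_nonneg (by linarith)]
    have hj := jj_spec (a := a) (b := b) (L := L) (c := c) (s := s) u v
    linear_combination (qq L c s : ℤ) * heq + (L : ℤ) * hj
  · rintro ⟨⟨u, v⟩, ⟨x, y, z⟩⟩ hd ⟨⟨u', v'⟩, ⟨x', y', z'⟩⟩ hd' h
    simp only [mem_coe, mem_sigma, mem_product, mem_range, inn, mem_filter, sol, mem_Icc] at hd hd'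
    obtain ⟨⟨hu, hv⟩, -, hx, hy, hz⟩ := hd
    obtain ⟨⟨hu1, hv1⟩, -, hx1, hy1, hz1⟩ := hd'
    have hu2 : (u : ℤ) < qq L c s := by exact_mod_cast hu
    have hv2 : (v : ℤ) < qq L c s := by exact_mod_cast hv
    have hu3 : (u' : ℤ) < qq L c s := by exact_mod_cast hu1
    have hv3 : (v' : ℤ) < qq L c s := by exact_mod_cast hv1
    simp only [Prod.mk.injEq] at h
    obtain ⟨h1, h2, h3⟩ := h
    have lift : ∀ (x x' : ℕ) (u u' : ℤ), 0 ≤ u → u < qq L c s → 0 ≤ u' → u' < qq L c s → L < x → x + L ≤ n →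
        L < x' → x' + L ≤ n → ((qq L c s : ℤ) * x - L * u).toNat = ((qq L c s : ℤ) * x' - L * u').toNat →
        x = x' ∧ u = u' := by
      intro x x' u u' p1 p2 p3 p4 p5 p6 p7 p8 p9
      obtain ⟨x1, x2, x3, x4, x5⟩ := key x u p1 p2 p5 p6
      obtain ⟨y1, y2, y3, y4, y5⟩ := key x' u' p3 p4 p7 p8
      have e : (qq L c s : ℤ) * x - L * u = (qq L c s : ℤ) * x' - L * u' := by
        have := congrArg (Nat.cast (R := ℤ)) p9
        rwa [Int.toNat_of_nonneg (by linarith), Int.toNat_of_nonneg (by linarith)] at this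
      have e1 : (x : ℤ) = x' := by
        have q1 := phi_lift (x := (x : ℤ)) p1 p2
        have q2 := phi_lift (x := (x' : ℤ)) p3 p4
        rw [← q1, e, q2]
      refine ⟨by exact_mod_cast e1, ?_⟩
      rw [e1] at e
      have hL : (L : ℤ) ≠ 0 := by
        intro h
        have : L = 0 := by exact_mod_cast h
        subst this
        simp [qq] at hq
      have : (L : ℤ) * u = L * u' := by linarith
      exact mul_left_cancel₀ hL this
    obtain ⟨rfl, hu4⟩ := lift x x' u u' (by positivity) hu2 (by positivity) hu3 hx.1 hx.2 hx1.1 hx1.2 h1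
    obtain ⟨rfl, hv4⟩ := lift y y' v v' (by positivity) hv2 (by positivity) hv3 hy.1 hy.2 hy1.1 hy1.2 h2
    have hu5 : u = u' := by exact_mod_cast hu4
    have hv5 : v = v' := by exact_mod_cast hv4
    subst hu5
    subst hv5
    obtain ⟨rfl, -⟩ := lift z z' _ _ (ww_nonneg _ _) (ww_lt _ _) (ww_nonneg _ _) (ww_lt _ _) hz.1 hz.2 hz1.1 hz1.2 h3
    rfl

theorem upper (f g : ℕ → Fin 3) {n m : ℕ}
    (hm : (m : ℤ) ≤ (qq L c s : ℤ) * (n - L)) :
    (sol g a b c m univ 0).card ≤
      ∑ p ∈ range (qq L c s) ×ˢ range (qq L c s), (sol f a b c n univ (L * jj a b L c s p.1 p.2)).card := by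
  rw [← card_sigma]
  refine card_le_card_of_injOn (fun p : ℕ × ℕ × ℕ => (⟨((rem L c s p.1).toNat, (rem L c s p.2.1).toNat),
    ((phi L c s p.1).toNat, (phi L c s p.2.1).toNat, (phi L c s p.2.2).toNat)⟩ : (_ : ℕ × ℕ) × (ℕ × ℕ × ℕ))) ?_ ?_
  · rintro ⟨x, y, z⟩ hp
    simp only [mem_coe, sol, mem_filter, mem_product, mem_Icc, mem_univ, and_true] at hp
    obtain ⟨⟨hx, hy, hz⟩, heq⟩ := hp
    simp only [mem_coe, mem_sigma, mem_product, mem_range, sol, mem_filter, mem_Icc, mem_univ, and_true]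
    have bd : ∀ x : ℕ, 1 ≤ x ∧ x ≤ m → 1 ≤ phi L c s x ∧ phi L c s x ≤ n := by
      intro x hx
      have h1 : (1 : ℤ) ≤ x := by exact_mod_cast hx.1
      have h2 : (x : ℤ) ≤ m := by exact_mod_cast hx.2
      exact ⟨phi_pos h1, phi_le (by linarith)⟩
    have bx := bd x hx
    have byy := bd y hy
    have bz := bd z hz
    have r1 := rem_nonneg (L := L) (c := c) (s := s) x
    have r2 := rem_nonneg (L := L) (c := c) (s := s) y
    have r3 := rem_nonneg (L := L) (c := c) (s := s) z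
    have l1 := rem_lt (L := L) (c := c) (s := s) x
    have l2 := rem_lt (L := L) (c := c) (s := s) y
    have l3 := rem_lt (L := L) (c := c) (s := s) z
    refine ⟨⟨by omega, by omega⟩, ⟨⟨by omega, by omega⟩, ⟨by omega, by omega⟩, by omega, by omega⟩, ?_⟩
    rw [Int.toNat_of_nonneg (by linarith [bx.1]), Int.toNat_of_nonneg (by linarith [byy.1]), Int.toNat_of_nonneg (by linarith [bz.1]),
      Int.toNat_of_nonneg r1, Int.toNat_of_nonneg r2]
    have sx := phi_spec (L := L) (c := c) (s := s) x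
    have sy := phi_spec (L := L) (c := c) (s := s) y
    have sz := phi_spec (L := L) (c := c) (s := s) z
    set X := phi L c s x
    set Y := phi L c s y
    set Z := phi L c s z
    set U := rem L c s x
    set V := rem L c s y
    set W := rem L c s z
    have e1 : (qq L c s : ℤ) * (a * X + b * Y - c * Z) = L * (a * U + b * V - c * W) := by
      linear_combination heq - (a : ℤ) * sx - (b : ℤ) * sy + (c : ℤ) * sz
    have e2 : (qq L c s : ℤ) ∣ a * U + b * V - c * W := by
      have h1 : (qq L c s : ℤ) ∣ L * (a * U + b * V - c * W) := ⟨_, e1.symm⟩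
      have h2 : IsCoprime (qq L c s : ℤ) (L : ℤ) := by
        rw [qq_cast]
        exact ⟨1, -(c * s), by ring⟩
      exact h2.dvd_of_dvd_mul_left h1
    have e3 : W = ww a b L c s U V := ww_unique r3 l3 e2
    have e4 := jj_spec (a := a) (b := b) (L := L) (c := c) (s := s) U V
    rw [← e3] at e4
    have e5 : (qq L c s : ℤ) * (a * X + b * Y - c * Z) = qq L c s * (L * jj a b L c s U V) := by
      rw [e1, ← e4]
      ring
    have e6 := mul_left_cancel₀ qq_pos.ne' e5
    linarith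
  · rintro ⟨x, y, z⟩ hp ⟨x', y', z'⟩ hp' h
    simp only [mem_coe, sol, mem_filter, mem_product, mem_Icc, mem_univ, and_true] at hp hp'
    obtain ⟨⟨hx, hy, hz⟩, heq⟩ := hp
    obtain ⟨⟨hx', hy', hz'⟩, heq'⟩ := hp'
    simp only [Sigma.mk.injEq, Prod.mk.injEq, heq_eq_eq] at h
    obtain ⟨⟨h1, h2⟩, h3, h4, h5⟩ := h
    have back : ∀ x x' : ℕ, 1 ≤ x → 1 ≤ x' → (rem L c s x).toNat = (rem L c s x').toNat →
        (phi L c s x).toNat = (phi L c s x').toNat → x = x' := by
      intro x x' p1 p2 p3 p4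
      have q1 := rem_nonneg (L := L) (c := c) (s := s) x
      have q2 := rem_nonneg (L := L) (c := c) (s := s) x'
      have q3 := phi_pos (L := L) (c := c) (s := s) (x := x) (by exact_mod_cast p1)
      have q4 := phi_pos (L := L) (c := c) (s := s) (x := x') (by exact_mod_cast p2)
      have q5 : rem L c s x = rem L c s x' := by omega
      have q6 : phi L c s x = phi L c s x' := by omega
      have sx := phi_spec (L := L) (c := c) (s := s) x
      have sy := phi_spec (L := L) (c := c) (s := s) x'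
      rw [q5, q6, ← sy] at sx
      exact_mod_cast sx
    have ex := back x x' hx.1 hx'.1 h1 h3
    have ey := back y y' hy.1 hy'.1 h2 h4
    subst ex
    subst ey
    rw [heq] at heq'
    have hc : (c : ℤ) ≠ 0 ∨ c = 0 := by
      by_cases hc : c = 0
      · exact Or.inr hc
      · exact Or.inl (by exact_mod_cast hc)
    rcases hc with hc | hc
    · have : (c : ℤ) * z = c * z' := by linarith
      have := mul_left_cancel₀ hc this
      have : z = z' := by exact_mod_cast this
      rw [this]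
    · -- `c = 0`: then `phi` is the identity
      subst hc
      have e : ∀ x : ℤ, phi L 0 s x = x := fun x => by simp [phi]
      rw [e, e] at h5
      have : z = z' := by simpa using h5
      rw [this]

end Pool.Agent.Q139.Lim
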