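import Mathlib

/-!
# Almost periodicity of the number of coloured solutions of a linear equation

For a 3-colouring `f` of `{1, …, n}` and the equation `a x + b y = c z + t`, the numbers of the
solutions with given colours of `x, y, z` change by at most `ε n²` when `t` is replaced by `t + L`,
for some `L ≥ 1` which is bounded in terms of `a, b, c, ε`.  This is the sampling argument of Croot and Sisask.
-/

set_option autoImplicit false

namespace Pool.Agent.Q139.Lim

open Finset

/-- the second moment of a sum of `k` independent copies of a centred function -/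
theorem var {α : Type*} [Fintype α] (h : α → ℝ) (h0 : ∑ x, h x = 0) (k : ℕ) :
    (Fintype.card α : ℝ) * ∑ x : Fin k → α, (∑ l, h (x l)) ^ 2 =
      k * (Fintype.card α : ℝ) ^ k * ∑ x, h x ^ 2 := by
  induction k with
  | zero => simp
  | succ k ih =>
    have h1 : ∑ x : Fin (k + 1) → α, (∑ l, h (x l)) ^ 2 =
        ∑ p : α × (Fin k → α), (h p.1 + ∑ l, h (p.2 l)) ^ 2 := by
      refine (Fintype.sum_equiv (Fin.consEquiv (fun _ => α)) _ _ fun p => ?_).symm
      rw [Fin.sum_univ_succ]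
      simp [Fin.consEquiv]
    have h2 : ∑ p : α × (Fin k → α), (h p.1 + ∑ l, h (p.2 l)) ^ 2 =
        (Fintype.card α : ℝ) ^ k * ∑ x, h x ^ 2 + (Fintype.card α : ℝ) * ∑ x : Fin k → α, (∑ l, h (x l)) ^ 2 := by
      rw [Fintype.sum_prod_type]
      have e : ∀ (s : α), ∑ y : Fin k → α, (h s + ∑ l, h (y l)) ^ 2 =
          (Fintype.card α : ℝ) ^ k * h s ^ 2 + 2 * h s * (∑ y : Fin k → α, ∑ l, h (y l)) +
            ∑ y : Fin k → α, (∑ l, h (y l)) ^ 2 := by
        intro s
        have : ∀ y : Fin k → α, (h s + ∑ l, h (y l)) ^ 2 =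
            h s ^ 2 + 2 * h s * (∑ l, h (y l)) + (∑ l, h (y l)) ^ 2 := fun y => by ring
        simp only [this]
        rw [sum_add_distrib, sum_add_distrib, sum_const, ← mul_sum]
        simp
      simp only [e]
      rw [sum_add_distrib, sum_add_distrib, ← mul_sum, ← sum_mul, ← mul_sum, h0]
      simp
    rw [h1, h2, mul_add, ih]
    push_cast
    ring

/-- the number of the `y ∈ {1, …, n}` of colour `j` with `a x + b y = w`, if `x` has colour `i` -/
noncomputable def g (f : ℕ → Fin 3) (a b n : ℕ) (i j : Fin 3) (w : ℤ) (x : ℕ) : ℝ :=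
  (((Icc 1 n).filter fun y => f x = i ∧ f y = j ∧ (a : ℤ) * x + b * y = w).card : ℝ)

theorem g_card_le (f : ℕ → Fin 3) (a b n : ℕ) (hb : 0 < b) (i j : Fin 3) (w : ℤ) (x : ℕ) :
    ((Icc 1 n).filter fun y => f x = i ∧ f y = j ∧ (a : ℤ) * x + b * y = w).card ≤ 1 := by
  rw [card_le_one]
  intro y hy y' hy'
  simp only [mem_filter] at hy hy'
  have h : (b : ℤ) * y = b * y' := by linarith [hy.2.2.2, hy'.2.2.2]
  have hb' : (b : ℤ) ≠ 0 := by exact_mod_cast hb.ne'
  exact_mod_cast mul_left_cancel₀ hb' h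

theorem g_nonneg (f : ℕ → Fin 3) (a b n : ℕ) (i j : Fin 3) (w : ℤ) (x : ℕ) : 0 ≤ g f a b n i j w x := by
  unfold g
  positivity

theorem g_sq (f : ℕ → Fin 3) (a b n : ℕ) (hb : 0 < b) (i j : Fin 3) (w : ℤ) (x : ℕ) :
    g f a b n i j w x ^ 2 = g f a b n i j w x := by
  have h := g_card_le f a b n hb i j w x
  unfold g
  interval_cases hh : ((Icc 1 n).filter fun y => f x = i ∧ f y = j ∧ (a : ℤ) * x + b * y = w).card <;> simp

/-- the number of the pairs `(x, y)` of colours `(i, j)` with `a x + b y = w` -/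
noncomputable def F (f : ℕ → Fin 3) (a b n : ℕ) (i j : Fin 3) (w : ℤ) : ℝ :=
  ∑ x : Fin n, g f a b n i j w (x + 1)

/-- the deviation of the sample `x` -/
noncomputable def H (f : ℕ → Fin 3) (a b n k : ℕ) (i j : Fin 3) (w : ℤ) (x : Fin k → Fin n) : ℝ :=
  ∑ l, (n * g f a b n i j w (x l + 1) - F f a b n i j w)

theorem H_eq (f : ℕ → Fin 3) (a b n k : ℕ) (i j : Fin 3) (w : ℤ) (x : Fin k → Fin n) :
    H f a b n k i j w x = n * ∑ l, g f a b n i j w (x l + 1) - k * F f a b n i j w := by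
  unfold H
  rw [sum_sub_distrib, ← mul_sum]
  simp

theorem H_second (f : ℕ → Fin 3) (a b n k : ℕ) (hn : 0 < n) (hb : 0 < b) (i j : Fin 3) (w : ℤ) :
    ∑ x : Fin k → Fin n, H f a b n k i j w x ^ 2 ≤ k * (n : ℝ) ^ (k + 1) * F f a b n i j w := by
  have hn' : (0 : ℝ) < n := by exact_mod_cast hn
  have h0 : ∑ x : Fin n, ((n : ℝ) * g f a b n i j w (x + 1) - F f a b n i j w) = 0 := by
    rw [sum_sub_distrib, ← mul_sum]
    simp [F]
  have h1 := var (fun x : Fin n => (n : ℝ) * g f a b n i j w (x + 1) - F f a b n i j w) h0 k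
  have h2 : ∑ x : Fin n, ((n : ℝ) * g f a b n i j w (x + 1) - F f a b n i j w) ^ 2 ≤
      (n : ℝ) ^ 2 * F f a b n i j w := by
    have e : ∀ x : Fin n, ((n : ℝ) * g f a b n i j w (x + 1) - F f a b n i j w) ^ 2 =
        (n : ℝ) ^ 2 * g f a b n i j w (x + 1) - 2 * n * F f a b n i j w * g f a b n i j w (x + 1) +
          F f a b n i j w ^ 2 := by
      intro x
      have := g_sq f a b n hb i j w (x + 1)
      linear_combination (n : ℝ) ^ 2 * this
    simp only [e]
    rw [sum_add_distrib, sum_sub_distrib, ← mul_sum, ← mul_sum, sum_const, card_univ, Fintype.card_fin, nsmul_eq_mul]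
    have hF : ∑ x : Fin n, g f a b n i j w (x + 1) = F f a b n i j w := rfl
    rw [hF]
    nlinarith [mul_nonneg hn'.le (sq_nonneg (F f a b n i j w))]
  rw [Fintype.card_fin] at h1
  have h3 : ∑ x : Fin k → Fin n, H f a b n k i j w x ^ 2 * n ≤ k * (n : ℝ) ^ (k + 1) * F f a b n i j w * n := by
    rw [← sum_mul, mul_comm]
    unfold H
    rw [h1]
    calc (k : ℝ) * (n : ℝ) ^ k * ∑ x : Fin n, ((n : ℝ) * g f a b n i j w (x + 1) - F f a b n i j w) ^ 2 ≤
        (k : ℝ) * (n : ℝ) ^ k * ((n : ℝ) ^ 2 * F f a b n i j w) := by gcongr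
      _ = _ := by ring
  rw [← sum_mul] at h3
  exact le_of_mul_le_mul_right h3 hn'

end Pool.Agent.Q139.Lim
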